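import Pool.Agent.X73.CG.Data

set_option autoImplicit false

/-!
# A planar triangle-free graph on 41 vertices without a partition into two cographs
-/

namespace Pool.Agent.X73.CG

open Pool.Agent.TH455.Fast
open Pool.Agent.H239R2.Planar (HasStraightLineDrawing)

/-- `x` and `y` are joined -/
def adjB (x y : ℕ) : List (ℕ × ℕ) → Bool
  | [] => false
  | e :: r => ((Nat.beq e.1 x && Nat.beq e.2 y) || (Nat.beq e.1 y && Nat.beq e.2 x)) || adjB x y r

theorem adjB_iff (x y : ℕ) (l : List (ℕ × ℕ)) : adjB x y l = true ↔ (x, y) ∈ l ∨ (y, x) ∈ l := by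
  induction l with
  | nil => simp [adjB]
  | cons e r ih =>
    obtain ⟨a, b⟩ := e
    unfold adjB
    rw [Bool.or_eq_true, Bool.or_eq_true, Bool.and_eq_true, Bool.and_eq_true, ih]
    simp only [Nat.beq_eq, List.mem_cons, Prod.mk.injEq]
    constructor
    · rintro ((⟨h1, h2⟩ | ⟨h1, h2⟩) | (h | h))
      · exact Or.inl (Or.inl ⟨h1.symm, h2.symm⟩)
      · exact Or.inr (Or.inl ⟨h1.symm, h2.symm⟩)
      · exact Or.inl (Or.inr h)
      · exact Or.inr (Or.inr h)
    · rintro ((⟨h1, h2⟩ | h) | (⟨h1, h2⟩ | h))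
      · exact Or.inl (Or.inl ⟨h1.symm, h2.symm⟩)
      · exact Or.inr (Or.inl h)
      · exact Or.inl (Or.inr ⟨h1.symm, h2.symm⟩)
      · exact Or.inr (Or.inr h)

/-- the four vertices form an induced path -/
def quadOk (q : ℕ × ℕ × ℕ × ℕ) : Bool :=
  match q with
  | (a, b, c, d) => ((adjB a b es && adjB b c es) && adjB c d es) &&
      (((!adjB a c es) && (!adjB b d es)) && (!adjB a d es)) &&
      ((!Nat.beq a c) && (!Nat.beq b d) && (!Nat.beq a d)) &&
      ((Nat.blt a 41 && Nat.blt b 41) && (Nat.blt c 41 && Nat.blt d 41))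

def quadsOk : List (ℕ × ℕ × ℕ × ℕ) → Bool
  | [] => true
  | q :: r => quadOk q && quadsOk r

theorem quadsOk_spec {l : List (ℕ × ℕ × ℕ × ℕ)} (h : quadsOk l = true) :
    ∀ q ∈ l, quadOk q = true := by
  induction l with
  | nil => intro q hq; simp at hq
  | cons a r ih =>
    unfold quadsOk at h
    rw [Bool.and_eq_true] at h
    intro q hq
    rcases List.mem_cons.mp hq with rfl | hq
    · exact h.1
    · exact ih h.2 q hq

theorem quads_ok : quadsOk quads = true := by decide +kernel

/-- the mask of a path -/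
def mask (q : ℕ × ℕ × ℕ × ℕ) : ℕ :=
  match q with
  | (a, b, c, d) => (2 ^ a ||| 2 ^ b) ||| (2 ^ c ||| 2 ^ d)

theorem masks_eq : masks = quads.map mask := by decide +kernel

/-- all the bits of `q` are bits of `m` -/
def sub (q m : ℕ) : Bool := Nat.beq (Nat.land q m) q

theorem sub_spec {q m : ℕ} (h : sub q m = true) (j : ℕ) (hj : q.testBit j = true) :
    m.testBit j = true := by
  unfold sub at h
  have h1 : q &&& m = q := Nat.eq_of_beq_eq_true h
  rw [← h1, Nat.testBit_and, Bool.and_eq_true] at hj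
  exact hj.2

def anySub (m : ℕ) : List ℕ → Bool
  | [] => false
  | q :: r => sub q m || anySub m r

theorem anySub_spec {m : ℕ} {l : List ℕ} (h : anySub m l = true) : ∃ q ∈ l, sub q m = true := by
  induction l with
  | nil => simp [anySub] at h
  | cons a r ih =>
    unfold anySub at h
    rw [Bool.or_eq_true] at h
    rcases h with h | h
    · exact ⟨a, List.mem_cons_self, h⟩
    · obtain ⟨q, hq, h'⟩ := ih h
      exact ⟨q, List.mem_cons_of_mem _ hq, h'⟩

/-- The search: the vertices with bits in `m0` lie in the first part, those with bits in `m1` in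
the second part, and in every branch some path lies in one part. -/
def closed : List (ℕ × List ℕ) → ℕ → ℕ → Bool
  | [], _, _ => false
  | (v, L) :: r, m0, m1 =>
    (force (Nat.lor m0 (2 ^ v)) fun m => anySub m L || closed r m m1) &&
      (force (Nat.lor m1 (2 ^ v)) fun m => anySub m L || closed r m0 m)

theorem testBit_lor (m v j : ℕ) : (Nat.lor m (2 ^ v)).testBit j = true →
    m.testBit j = true ∨ j = v := by
  intro h
  have h1 : (m ||| 2 ^ v).testBit j = true := h
  rw [Nat.testBit_or, Bool.or_eq_true] at h1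
  rcases h1 with h1 | h1
  · exact Or.inl h1
  · right
    rw [Nat.testBit_two_pow] at h1
    simp only [decide_eq_true_eq] at h1
    exact h1.symm

/-- Soundness of the search. -/
theorem closed_spec (c : ℕ → Bool) (N : ℕ → Prop)
    (hN : ∀ q, N q → ∀ b, ¬ ∀ j, q.testBit j = true → c j = b) :
    ∀ (l : List (ℕ × List ℕ)) (m0 m1 : ℕ), (∀ p ∈ l, ∀ q ∈ p.2, N q) →
      (∀ j, m0.testBit j = true → c j = false) → (∀ j, m1.testBit j = true → c j = true) →
      closed l m0 m1 = true → False := by
  intro l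
  induction l with
  | nil => intro m0 m1 _ _ _ h; exact Bool.noConfusion h
  | cons p r ih =>
    obtain ⟨v, L⟩ := p
    intro m0 m1 hl h0 h1 h
    unfold closed at h
    rw [force_eq, force_eq, Bool.and_eq_true, Bool.or_eq_true, Bool.or_eq_true] at h
    have hr : ∀ p ∈ r, ∀ q ∈ p.2, N q := fun p hp => hl p (List.mem_cons_of_mem _ hp)
    have hL : ∀ q ∈ L, N q := hl (v, L) List.mem_cons_self
    cases hv : c v with
    | false =>
      have h0' : ∀ j, (Nat.lor m0 (2 ^ v)).testBit j = true → c j = false := by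
        intro j hj
        rcases testBit_lor m0 v j hj with h' | h'
        · exact h0 j h'
        · rw [h']; exact hv
      rcases h.1 with h' | h'
      · obtain ⟨q, hq, hs⟩ := anySub_spec h'
        exact hN q (hL q hq) false (fun j hj => h0' j (sub_spec hs j hj))
      · exact ih _ _ hr h0' h1 h'
    | true =>
      have h1' : ∀ j, (Nat.lor m1 (2 ^ v)).testBit j = true → c j = true := by
        intro j hj
        rcases testBit_lor m1 v j hj with h' | h'
        · exact h1 j h'
        · rw [h']; exact hv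
      rcases h.2 with h' | h'
      · obtain ⟨q, hq, hs⟩ := anySub_spec h'
        exact hN q (hL q hq) true (fun j hj => h1' j (sub_spec hs j hj))
      · exact ih _ _ hr h0 h1' h'

/-- all masks of the tree occur in the list of masks -/
def treeOk : List (ℕ × List ℕ) → Bool
  | [] => true
  | p :: r => p.2.all (fun q => masks.contains q) && treeOk r

theorem treeOk_spec {l : List (ℕ × List ℕ)} (h : treeOk l = true) :
    ∀ p ∈ l, ∀ q ∈ p.2, q ∈ masks := by
  induction l with
  | nil => intro p hp; simp at hp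
  | cons a r ih =>
    unfold treeOk at h
    rw [Bool.and_eq_true] at h
    intro p hp q hq
    rcases List.mem_cons.mp hp with rfl | hp
    · have := List.all_eq_true.mp h.1 q hq
      simpa using this
    · exact ih h.2 p hp q hq

/-- The two roots of a gadget get the same colour. -/
theorem equal_of_tree (c : ℕ → Bool)
    (hc : ∀ q ∈ masks, ∀ b, ¬ ∀ j, q.testBit j = true → c j = b)
    (l : List (ℕ × List ℕ)) (u v : ℕ) (hl : treeOk l = true)
    (h : closed l (2 ^ u) (2 ^ v) = true) : c u = c v := by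
  have key : ∀ c : ℕ → Bool, (∀ q ∈ masks, ∀ b, ¬ ∀ j, q.testBit j = true → c j = b) →
      ¬ (c u = false ∧ c v = true) := by
    rintro c hc ⟨h0, h1⟩
    refine closed_spec c (· ∈ masks) hc l _ _ (treeOk_spec hl) ?_ ?_ h
    · intro j hj
      rw [Nat.testBit_two_pow] at hj
      simp only [decide_eq_true_eq] at hj
      rw [← hj]; exact h0
    · intro j hj
      rw [Nat.testBit_two_pow] at hj
      simp only [decide_eq_true_eq] at hj
      rw [← hj]; exact h1
  have k1 := key c hc
  have k2 := key (fun j => !c j) (by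
    intro q hq b hb
    refine hc q hq (!b) (fun j hj => ?_)
    rw [← hb j hj, Bool.not_not])
  cases hu : c u <;> cases hv : c v
  · rfl
  · exact absurd ⟨hu, hv⟩ k1
  · exact absurd ⟨by simp [hu], by simp [hv]⟩ k2
  · rfl

theorem treeA_ok : treeOk treeA = true := by decide +kernel
theorem treeB_ok : treeOk treeB = true := by decide +kernel
theorem treeC_ok : treeOk treeC = true := by decide +kernel

theorem closedA : closed treeA (2 ^ 0) (2 ^ 2) = true := by decide +kernel
theorem closedB : closed treeB (2 ^ 1) (2 ^ 3) = true := by decide +kernel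
theorem closedC : closed treeC (2 ^ 0) (2 ^ 3) = true := by decide +kernel

/-- Every 2-colouring of the vertices has a monochromatic induced path on four vertices. -/
theorem exists_mono (c : ℕ → Bool) :
    ∃ a b d e : ℕ, (a, b, d, e) ∈ quads ∧ c a = c b ∧ c b = c d ∧ c d = c e := by
  by_contra hcon
  push Not at hcon
  have hc : ∀ q ∈ masks, ∀ b, ¬ ∀ j, q.testBit j = true → c j = b := by
    intro q hq b hb
    rw [masks_eq, List.mem_map] at hq
    obtain ⟨⟨x, y, z, w⟩, hm, rfl⟩ := hq
    have t : ∀ j, j = x ∨ j = y ∨ j = z ∨ j = w → c j = b := by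
      intro j hj
      apply hb
      unfold mask
      simp only [Nat.testBit_or, Nat.testBit_two_pow, Bool.or_eq_true, decide_eq_true_eq]
      rcases hj with rfl | rfl | rfl | rfl
      · exact Or.inl (Or.inl rfl)
      · exact Or.inl (Or.inr rfl)
      · exact Or.inr (Or.inl rfl)
      · exact Or.inr (Or.inr rfl)
    refine hcon x y z w hm ?_ ?_ ?_
    · rw [t x (by simp), t y (by simp)]
    · rw [t y (by simp), t z (by simp)]
    · rw [t z (by simp), t w (by simp)]
  have e1 := equal_of_tree c hc treeA 0 2 treeA_ok closedA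
  have e2 := equal_of_tree c hc treeB 1 3 treeB_ok closedB
  have e3 := equal_of_tree c hc treeC 0 3 treeC_ok closedC
  refine hcon 0 1 2 3 (by decide +kernel) ?_ ?_ ?_
  · rw [e2, ← e3]
  · rw [e2, ← e3, e1]
  · rw [← e1, e3]

/-! ### The graph -/

/-- the graph -/
def G : SimpleGraph (Fin 41) := gr 41 es

theorem drawing : HasStraightLineDrawing G :=
  drawing_of_checks es vs ed rfl (by decide +kernel) (by decide +kernel) (by decide +kernel)
    (by decide +kernel) (by decide +kernel) (by decide +kernel)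

theorem adj_iff (a b : Fin 41) : G.Adj a b ↔ a ≠ b ∧ adjB a.1 b.1 es = true := by
  rw [adjB_iff]
  rfl

/-- no triangle contains the edge -/
def triOk : List (ℕ × ℕ) → Bool
  | [] => true
  | e :: r => (List.range 41).all (fun x => !(adjB e.1 x es && adjB e.2 x es)) && triOk r

theorem triOk_spec {l : List (ℕ × ℕ)} (h : triOk l = true) :
    ∀ e ∈ l, ∀ x < 41, ¬ (adjB e.1 x es = true ∧ adjB e.2 x es = true) := by
  induction l with
  | nil => intro e he; simp at he
  | cons a r ih =>
    unfold triOk at h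
    rw [Bool.and_eq_true] at h
    intro e he x hx
    rcases List.mem_cons.mp he with rfl | he
    · have := List.all_eq_true.mp h.1 x (List.mem_range.mpr hx)
      rintro ⟨h1, h2⟩
      rw [h1, h2] at this
      exact Bool.noConfusion this
    · exact ih h.2 e he x hx

theorem tri_ok : triOk es = true := by decide +kernel

theorem triangle_free : G.CliqueFree 3 := by
  intro s hs
  rw [SimpleGraph.is3Clique_iff] at hs
  obtain ⟨a, b, c, hab, hac, hbc, -⟩ := hs
  rw [adj_iff] at hac hbc
  rcases hab with ⟨_, h | h⟩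
  · exact triOk_spec tri_ok _ h c.1 c.2 ⟨hac.2, hbc.2⟩
  · exact triOk_spec tri_ok _ h c.1 c.2 ⟨hbc.2, hac.2⟩

/-- the entries of the two ends of each edge are different -/
def colOk : List (ℕ × ℕ) → Bool
  | [] => true
  | e :: r => !(Nat.beq (cols.getD e.1 0) (cols.getD e.2 0)) && colOk r

theorem colOk_spec {l : List (ℕ × ℕ)} (h : colOk l = true) :
    ∀ e ∈ l, cols.getD e.1 0 ≠ cols.getD e.2 0 := by
  induction l with
  | nil => intro e he; simp at he
  | cons a r ih =>
    unfold colOk at h
    rw [Bool.and_eq_true] at h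
    intro e he
    rcases List.mem_cons.mp he with rfl | he
    · intro h'
      rw [h', Nat.beq_refl] at h
      exact Bool.noConfusion h.1
    · exact ih h.2 e he

theorem cols_ok : colOk es = true := by decide +kernel

theorem cols_lt : ∀ v : Fin 41, cols.getD v.1 0 < 3 := by decide +kernel

theorem colouring : ∃ f : Fin 41 → Fin 3, ∀ a b, G.Adj a b → f a ≠ f b := by
  refine ⟨fun v => ⟨cols.getD v.1 0, cols_lt v⟩, ?_⟩
  rintro a b ⟨_, h | h⟩ he
  · exact colOk_spec cols_ok _ h (congrArg Fin.val he)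
  · exact colOk_spec cols_ok _ h (congrArg Fin.val he).symm

/-- An induced path on four vertices. -/
theorem path_of {V : Type} {G : SimpleGraph V} {a b c d : V} (hab : G.Adj a b) (hbc : G.Adj b c)
    (hcd : G.Adj c d) (hac : ¬ G.Adj a c) (hbd : ¬ G.Adj b d) (had : ¬ G.Adj a d)
    (nac : a ≠ c) (nbd : b ≠ d) (nad : a ≠ d) :
    Nonempty (SimpleGraph.pathGraph 4 ↪g G) := by
  have hinj : Function.Injective ![a, b, c, d] := by
    intro i j hij
    fin_cases i <;> fin_cases j <;>
      simp_all [hab.ne, hbc.ne, hcd.ne, hab.ne.symm, hbc.ne.symm, hcd.ne.symm]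
  refine ⟨⟨⟨![a, b, c, d], hinj⟩, ?_⟩⟩
  intro i j
  have hca : ¬ G.Adj c a := fun h => hac h.symm
  have hdb : ¬ G.Adj d b := fun h => hbd h.symm
  have hda : ¬ G.Adj d a := fun h => had h.symm
  rw [SimpleGraph.pathGraph_adj]
  fin_cases i <;> fin_cases j <;> simp [hab, hbc, hcd, hac, hbd, had, hab.symm, hbc.symm,
    hcd.symm, hca, hdb, hda]

/-- Every 2-colouring has a colour class with an induced path on four vertices. -/
theorem mono_path {k : ℕ} (hk : k ≤ 2) (f : Fin 41 → Fin k) :
    ∃ i, Nonempty (SimpleGraph.pathGraph 4 ↪g G.induce {v | f v = i}) := by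
  obtain ⟨a, b, c, d, hm, e1, e2, e3⟩ :=
    exists_mono (fun j => if h : j < 41 then decide ((f ⟨j, h⟩).val = 1) else false)
  have hq := quadsOk_spec quads_ok _ hm
  unfold quadOk at hq
  simp only [Bool.and_eq_true, Nat.blt_eq, Bool.not_eq_true'] at hq
  obtain ⟨⟨⟨⟨⟨hab, hbc⟩, hcd⟩, ⟨hac, hbd⟩, had⟩, ⟨nac', nbd'⟩, nad'⟩, ⟨ha, hb⟩, hc, hd⟩ := hq
  have ne_of : ∀ x y : ℕ, Nat.beq x y = false → x ≠ y := by
    rintro x y h rfl
    rw [Nat.beq_refl] at h
    exact Bool.noConfusion h
  have nac := ne_of _ _ nac'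
  have nbd := ne_of _ _ nbd'
  have nad := ne_of _ _ nad'
  have eqf : ∀ x y (hx : x < 41) (hy : y < 41),
      ((if h : x < 41 then decide ((f ⟨x, h⟩).val = 1) else false) =
        (if h : y < 41 then decide ((f ⟨y, h⟩).val = 1) else false)) →
      f ⟨x, hx⟩ = f ⟨y, hy⟩ := by
    intro x y hx hy h
    rw [dif_pos hx, dif_pos hy] at h
    have h' : ((f ⟨x, hx⟩).val = 1) ↔ ((f ⟨y, hy⟩).val = 1) := by
      simpa using h
    apply Fin.ext
    have b1 := (f ⟨x, hx⟩).isLt
    have b2 := (f ⟨y, hy⟩).isLt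
    by_cases h1 : (f ⟨x, hx⟩).val = 1
    · rw [h1, h'.mp h1]
    · have h2 : (f ⟨y, hy⟩).val ≠ 1 := fun h2 => h1 (h'.mpr h2)
      omega
  have f1 := eqf a b ha hb e1
  have f2 := eqf b c hb hc e2
  have f3 := eqf c d hc hd e3
  have ad : ∀ x y (hx : x < 41) (hy : y < 41), adjB x y es = true → x ≠ y →
      G.Adj ⟨x, hx⟩ ⟨y, hy⟩ := by
    intro x y hx hy h hne
    rw [adj_iff]
    exact ⟨fun h' => hne (congrArg Fin.val h'), h⟩
  have nd : ∀ x y (hx : x < 41) (hy : y < 41), adjB x y es = false →
      ¬ G.Adj ⟨x, hx⟩ ⟨y, hy⟩ := by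
    intro x y hx hy h h'
    rw [adj_iff] at h'
    rw [h] at h'
    exact Bool.noConfusion h'.2
  have irr : ∀ x, x < 41 → adjB x x es = false := by
    have : ∀ x : Fin 41, adjB x.1 x.1 es = false := by decide +kernel
    intro x hx
    exact this ⟨x, hx⟩
  have nab : a ≠ b := by rintro rfl; rw [irr a ha] at hab; exact Bool.noConfusion hab
  have nbc : b ≠ c := by rintro rfl; rw [irr b hb] at hbc; exact Bool.noConfusion hbc
  have ncd : c ≠ d := by rintro rfl; rw [irr c hc] at hcd; exact Bool.noConfusion hcd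
  refine ⟨f ⟨a, ha⟩, ?_⟩
  let A : {v | f v = f ⟨a, ha⟩} := ⟨⟨a, ha⟩, rfl⟩
  let B : {v | f v = f ⟨a, ha⟩} := ⟨⟨b, hb⟩, f1.symm⟩
  let C : {v | f v = f ⟨a, ha⟩} := ⟨⟨c, hc⟩, f2.symm.trans f1.symm⟩
  let D : {v | f v = f ⟨a, ha⟩} := ⟨⟨d, hd⟩, f3.symm.trans (f2.symm.trans f1.symm)⟩
  refine path_of (a := A) (b := B) (c := C) (d := D) ?_ ?_ ?_ ?_ ?_ ?_ ?_ ?_ ?_
  · exact ad a b ha hb hab nab
  · exact ad b c hb hc hbc nbc
  · exact ad c d hc hd hcd ncd
  · exact nd a c ha hc hac
  · exact nd b d hb hd hbd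
  · exact nd a d ha hd had
  · intro h; exact nac (congrArg (fun z => z.1.1) h)
  · intro h; exact nbd (congrArg (fun z => z.1.1) h)
  · intro h; exact nad (congrArg (fun z => z.1.1) h)

end Pool.Agent.X73.CG
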